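import Pool.Agent.N513.CE.Stm
import Pool.Agent.N289.SA.Diag

set_option autoImplicit false

/-!
# CE/DIA: central scalar matrices lie in `E_3`
-/

namespace Pool.Agent.N362.CE

open Pool.Agent.N44.NS (E3)
open Pool.Agent.N513.CE
open Pool.Agent.N289.SA (dg)

noncomputable section

variable {A : Type} [Ring A]

theorem el_eq (i j : Fin 3) (h : i ≠ j) (a : A) :
    Pool.Agent.N289.SA.el i j h a = Pool.Agent.N44.NS.el i j h a := Units.ext rfl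

theorem el_mem (i j : Fin 3) (h : i ≠ j) (a : A) : Pool.Agent.N289.SA.el i j h a ∈ E3 A := by
  rw [el_eq]
  exact Subgroup.subset_closure ⟨i, j, h, a, rfl⟩

/-- `x` at the place `i` and `x⁻¹` at the place `j` -/
def pr (i j : Fin 3) (x : Aˣ) : Fin 3 → Aˣ := Function.update (Function.update 1 i x) j x⁻¹

theorem pr_mem (i j : Fin 3) (h : i ≠ j) (x : Aˣ) : dg (pr i j x) ∈ E3 A :=
  Pool.Agent.N289.SA.dg_pair_mem (E3 A) h x (fun r _ => el_mem i j h r)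
    (fun r _ => el_mem j i h.symm r)

theorem com_eq (a b : Aˣ) : (fun _ => a * b * a⁻¹ * b⁻¹ : Fin 3 → Aˣ) =
    (pr 0 1 a * pr 0 2 b * (pr 0 1 a)⁻¹ * (pr 0 2 b)⁻¹) *
    (pr 1 2 a * pr 1 0 b * (pr 1 2 a)⁻¹ * (pr 1 0 b)⁻¹) *
    (pr 2 0 a * pr 2 1 b * (pr 2 0 a)⁻¹ * (pr 2 1 b)⁻¹) := by
  funext k
  fin_cases k <;> simp [pr, Function.update]

theorem com_mem (a b : Aˣ) : dg (fun _ => a * b * a⁻¹ * b⁻¹ : Fin 3 → Aˣ) ∈ E3 A := by
  rw [com_eq]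
  simp only [map_mul, map_inv]
  have h : ∀ (i j k l : Fin 3), i ≠ j → k ≠ l →
      dg (pr i j a) * dg (pr k l b) * (dg (pr i j a))⁻¹ * (dg (pr k l b))⁻¹ ∈ E3 A :=
    fun i j k l h1 h2 => mul_mem (mul_mem (mul_mem (pr_mem i j h1 a) (pr_mem k l h2 b))
      (inv_mem (pr_mem i j h1 a))) (inv_mem (pr_mem k l h2 b))
  exact mul_mem (mul_mem (h _ _ _ _ (by decide) (by decide)) (h _ _ _ _ (by decide) (by decide)))
    (h _ _ _ _ (by decide) (by decide))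

theorem z_com {C D : Type} [CommRing C] [Group D] (W : MonoidAlgebra C D) :
    Hall.z W = (⟨W, 0, 0, 1⟩ : Hall C D) * ⟨0, 1, 0, 1⟩ * (⟨W, 0, 0, 1⟩ : Hall C D)⁻¹ *
      (⟨0, 1, 0, 1⟩ : Hall C D)⁻¹ := by
  have h : Hall.z W * ((⟨0, 1, 0, 1⟩ : Hall C D) * ⟨W, 0, 0, 1⟩) =
      (⟨W, 0, 0, 1⟩ : Hall C D) * ⟨0, 1, 0, 1⟩ := by
    ext1
    · simp [Hall.z, MonoidAlgebra.one_def.symm]
    · simp [Hall.z]
    · simp [Hall.z]
    · simp [Hall.z]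
  rw [mul_assoc, ← mul_inv_rev, ← h, mul_inv_cancel_right]

/-- **DIA** -/
theorem t_DIA : S_DIA := by
  intro q C D _ _ W
  set φ : Hall C D →* (AA q C D)ˣ :=
    (Units.map (MonoidAlgebra.of (ZMod q) (Hall C D))).comp toUnits.toMonoidHom with hφ
  have h1 : dia (ZMod q) (Hall.z W) = dg (fun _ => φ (Hall.z W) : Fin 3 → (AA q C D)ˣ) :=
    Units.ext rfl
  rw [h1, z_com W, map_mul, map_mul, map_mul, map_inv, map_inv]
  exact com_mem _ _

end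

end Pool.Agent.N362.CE
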